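import Pool.Agent.Lib.MP_144d21_co.X4.Iface

/-!
# MP_144d21_co, X4, module NDC (helper67): minimum degree `d` and a separation of order 2 give
`β ≥ ((d - 1)!)²`.
-/

set_option autoImplicit false

namespace Pool.Agent.Xu.X4.H67

open Finset Pool.Agent.Xu Pool.Agent.Xu.X4

/-- one side of a cut `{x, y}` -/
theorem side (hMD : MdS) (hCC : CutconnS) {V : Type} [Fintype V] [DecidableEq V]
    {G : SimpleGraph V} {S S1 S2 : Finset V} {d : ℕ} {x y : V} (h2 : TwoConn G S)
    (hd : ∀ v ∈ S, d ≤ (nb G S v).card) (hxy : x ≠ y) (hU : S1 ∪ S2 = S)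
    (hI : S1 ∩ S2 = {x, y}) (hS : Sep G S1 S2) (h1' : S2 ≠ S) :
    ((d - 1).factorial : ℤ) ≤ bet (add G x y) S1 := by
  have h2U : TwoConn G (S1 ∪ S2) := by rw [hU]; exact h2
  have c1 : TwoConn (add G x y) S1 := hCC V G S1 S2 x y h2U hI hxy hS
  have hn1 : ¬ S1 ⊆ S2 := fun h => h1' (by rw [← hU]; exact (union_eq_right.2 h).symm)
  have hx : x ∈ S1 ∩ S2 := by rw [hI]; simp
  have hy : y ∈ S1 ∩ S2 := by rw [hI]; simp
  rw [mem_inter] at hx hy
  obtain ⟨b, hb1, hb2⟩ := not_subset.1 hn1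
  have hc3 : 3 ≤ S1.card := by
    have hsub : ({x, y, b} : Finset V) ⊆ S1 := by
      intro z hz
      simp only [mem_insert, mem_singleton] at hz
      rcases hz with rfl | rfl | rfl
      · exact hx.1
      · exact hy.1
      · exact hb1
    have hcard : ({x, y, b} : Finset V).card = 3 := by
      rw [card_eq_three]
      exact ⟨x, y, b, hxy, fun h => hb2 (h ▸ hx.2), fun h => hb2 (h ▸ hy.2), rfl⟩
    rw [← hcard]
    exact card_le_card hsub
  have hadj : (add G x y).Adj x y := Or.inr ⟨hxy, Or.inl ⟨rfl, rfl⟩⟩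
  refine hMD V _ S1 x y d c1 hc3 hx.1 hy.1 hadj fun v hv hvx hvy => ?_
  have hv2 : v ∉ S2 := fun h => by
    have : v ∈ S1 ∩ S2 := mem_inter.2 ⟨hv, h⟩
    rw [hI] at this
    simp only [mem_insert, mem_singleton] at this
    tauto
  have hvS : v ∈ S := by rw [← hU]; exact mem_union_left _ hv
  refine (hd v hvS).trans (card_le_card fun u hu => ?_)
  rw [mem_nb] at hu ⊢
  refine ⟨?_, Or.inl hu.2⟩
  by_contra hu1
  have hu2 : u ∈ S2 := by
    have := hu.1
    rw [← hU, mem_union] at this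
    tauto
  exact hS v hv hv2 u hu2 hu1 hu.2

/-- module NDC -/
theorem ndc (hMD : MdS) (hBC : BetcutS) (hCC : CutconnS) (hDICH : DichS) : NdcS := by
  intro V _ _ G S d h2 h4 hn3 hd
  rcases hDICH V G S h4 h2 with hT | ⟨x, y, S1, S2, hxy, hU, hI, hS, h1, h1'⟩
  · exact absurd hT hn3
  have hn1 : ¬ S1 ⊆ S2 := fun h => h1' (by rw [← hU]; exact (union_eq_right.2 h).symm)
  have hn2 : ¬ S2 ⊆ S1 := fun h => h1 (by rw [← hU]; exact (union_eq_left.2 h).symm)
  have h2U : TwoConn G (S1 ∪ S2) := by rw [hU]; exact h2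
  have hb : bet G S = bet (add G x y) S1 * bet (add G x y) S2 := by
    rw [← hU]; exact hBC V G S1 S2 x y h2U hI hxy hS hn1 hn2
  have b1 := side hMD hCC h2 hd hxy hU hI hS h1'
  have b2 := side hMD hCC h2 hd hxy (by rw [union_comm]; exact hU)
    (by rw [inter_comm]; exact hI)
    (fun p hp hp' q hq hq' hpq => hS q hq hq' p hp hp' hpq.symm) h1
  have hf : (0 : ℤ) ≤ ((d - 1).factorial : ℤ) := by positivity
  rw [hb]
  exact mul_le_mul b1 b2 hf (hf.trans b1)

end Pool.Agent.Xu.X4.H67
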